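import Pool.Agent.H4.KG.MTD

/-!
# Project KG, module FPB: the evolution of `F_p`
-/

set_option autoImplicit false

open MeasureTheory Set Filter Topology
open scoped ContDiff

namespace Pool.Agent.H4.KG

open Pool.Agent.H84 Pool.Agent.H84.Sym Pool.Agent.H84.Sym.P2x Pool.Agent.H19.KL
open Pool.Agent.H73.KG

section

variable {ι : Type} [Fintype ι] [DecidableEq ι]

theorem FPB_det {A : Matrix ι ι ℝ} (hA : A.PosSemidef) : 1 ≤ (1 + A).det := by
  have hH : (1 + A).IsHermitian := Matrix.isHermitian_one.add hA.isHermitian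
  rw [hH.det_eq_prod_eigenvalues]
  refine Finset.one_le_prod fun i _ => ?_
  simp only [RCLike.ofReal_real_eq_id, id_eq]
  rw [hH.eigenvalues_eq, Matrix.add_mulVec, Matrix.one_mulVec, dotProduct_add]
  have h1 : star (hH.eigenvectorBasis i).ofLp ⬝ᵥ (hH.eigenvectorBasis i).ofLp = (1 : ℝ) := by
    have h2 := (EuclideanSpace.inner_eq_star_dotProduct (𝕜 := ℝ) (hH.eigenvectorBasis i)
      (hH.eigenvectorBasis i)).symm
    rw [real_inner_self_eq_norm_sq, hH.eigenvectorBasis.orthonormal.1 i] at h2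
    rw [dotProduct_comm]; simpa using h2
  have h3 := hA.dotProduct_mulVec_nonneg (hH.eigenvectorBasis i).ofLp
  rw [h1]
  simpa using h3

end

section

variable {E : Type} [NormedAddCommGroup E] [InnerProductSpace ℝ E]
    [FiniteDimensional ℝ E] [MeasurableSpace E] [BorelSpace E]
variable {ι : Type} [Fintype ι] [DecidableEq ι]

/-- regular matrix functions -/
def FPB_R (M : ℝ → E → Matrix ι ι ℝ) : Prop := ∀ i j, RG (fun s θ => M s θ i j)

theorem FPB_sum (h : RGCStmt E) {κ : Type} (T : Finset κ) (F : κ → ℝ → E → ℝ)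
    (hF : ∀ k ∈ T, RG (F k)) : RG (fun s θ => ∑ k ∈ T, F k s θ) := by
  classical
  induction T using Finset.induction_on with
  | empty => simpa using h.1 0
  | insert a T ha ih =>
    simp only [Finset.sum_insert ha]
    exact h.2.1 _ _ (hF a (Finset.mem_insert_self a T))
      (ih fun k hk => hF k (Finset.mem_insert_of_mem hk))

theorem FPB_prod (h : RGCStmt E) {κ : Type} (T : Finset κ) (F : κ → ℝ → E → ℝ)
    (hF : ∀ k ∈ T, RG (F k)) : RG (fun s θ => ∏ k ∈ T, F k s θ) := by
  classical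
  induction T using Finset.induction_on with
  | empty => simpa using h.1 1
  | insert a T ha ih =>
    simp only [Finset.prod_insert ha]
    exact h.2.2.1 _ _ (hF a (Finset.mem_insert_self a T))
      (ih fun k hk => hF k (Finset.mem_insert_of_mem hk))

omit [Fintype ι] [DecidableEq ι] in
theorem FPB_const (h : RGCStmt E) (M : Matrix ι ι ℝ) :
    FPB_R (fun (_ : ℝ) (_ : E) => M) := fun i j => h.1 (M i j)

omit [Fintype ι] [DecidableEq ι] in
theorem FPB_add (h : RGCStmt E) {M N : ℝ → E → Matrix ι ι ℝ} (hM : FPB_R M) (hN : FPB_R N) :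
    FPB_R (fun s θ => M s θ + N s θ) := fun i j => h.2.1 _ _ (hM i j) (hN i j)

omit [DecidableEq ι] in
theorem FPB_mul (h : RGCStmt E) {M N : ℝ → E → Matrix ι ι ℝ} (hM : FPB_R M) (hN : FPB_R N) :
    FPB_R (fun s θ => M s θ * N s θ) := fun i j => by
  simp only [Matrix.mul_apply]
  exact FPB_sum h _ _ fun k _ => h.2.2.1 _ _ (hM i k) (hN k j)

theorem FPB_pow (h : RGCStmt E) {M : ℝ → E → Matrix ι ι ℝ} (hM : FPB_R M) (p : ℕ) :
    FPB_R (fun s θ => M s θ ^ p) := by
  induction p with
  | zero => simpa using FPB_const h (1 : Matrix ι ι ℝ)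
  | succ p ih => simp only [pow_succ]; exact FPB_mul h ih hM

omit [DecidableEq ι] in
theorem FPB_trace (h : RGCStmt E) {M : ℝ → E → Matrix ι ι ℝ} (hM : FPB_R M) :
    RG (fun s θ => (M s θ).trace) := by
  simp only [Matrix.trace, Matrix.diag_apply]
  exact FPB_sum h _ _ fun k _ => hM k k

theorem FPB_detR (h : RGCStmt E) {M : ℝ → E → Matrix ι ι ℝ} (hM : FPB_R M) :
    RG (fun s θ => (M s θ).det) := by
  simp only [Matrix.det_apply']
  exact FPB_sum h _ _ fun σ _ => h.2.2.1 _ _ (h.1 _) (FPB_prod h _ _ fun k _ => hM _ _)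

theorem FPB_inv (h : RGCStmt E) {M : ℝ → E → Matrix ι ι ℝ} (hM : FPB_R M)
    (h1 : ∀ s θ, 0 ≤ s → 1 ≤ (M s θ).det) : FPB_R (fun s θ => (M s θ)⁻¹) := by
  intro i j
  have h2 : ∀ s θ, (M s θ)⁻¹ i j = ((M s θ).det)⁻¹ * (M s θ).adjugate i j := fun s θ => by
    rw [Matrix.inv_def]; simp
  simp only [h2]
  refine h.2.2.1 _ _ (h.2.2.2.1 _ (FPB_detR h hM) h1) ?_
  simp only [Matrix.adjugate_apply]
  refine FPB_detR h (M := fun s θ => (M s θ).updateRow j (Pi.single i 1)) fun k l => ?_
  simp only [Matrix.updateRow_apply]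
  by_cases hk : k = j
  · simp only [if_pos hk]; exact h.1 _
  · simp only [if_neg hk]; exact hM k l

theorem FPB_RGFP (h : RGCStmt E) {A : ℝ → E → Matrix ι ι ℝ} (hA : FPB_R A)
    (h1 : ∀ s θ, 0 ≤ s → 1 ≤ (1 + A s θ).det) (p : ℕ) : RG (fun s θ => FP p (A s θ)) := by
  unfold FP
  exact FPB_trace h (FPB_mul h hA (FPB_pow h (FPB_mul h hA
    (FPB_inv h (FPB_add h (FPB_const h 1) hA) h1)) p))

omit [FiniteDimensional ℝ E] [MeasurableSpace E] [BorelSpace E] in
/-- derivative in time -/
theorem FPB_dt {F : ℝ → E → ℝ} (hF : RG F) {s : ℝ} (hs : 0 < s) (θ : E) :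
    HasDerivAt (fun r => F r θ) (deriv (fun r => F r θ) s) s := by
  refine DifferentiableAt.hasDerivAt ?_
  have h1 : DifferentiableAt ℝ (Function.uncurry F) (s, θ) := by
    have h2 := hF.smooth.contDiffAt (x := (s, θ))
      ((isOpen_Ioi.prod isOpen_univ).mem_nhds ⟨hs, mem_univ _⟩)
    exact h2.differentiableAt (by norm_num)
  have h3 : DifferentiableAt ℝ (fun r : ℝ => ((r, θ) : ℝ × E)) s :=
    differentiableAt_id.prodMk (differentiableAt_const _)
  exact h1.comp s h3

omit [FiniteDimensional ℝ E] [MeasurableSpace E] [BorelSpace E] in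
/-- derivative along a line -/
theorem FPB_dl {f : E → ℝ} {x : E} (hf : DifferentiableAt ℝ f x) (e : E) {r : ℝ} {y : E}
    (hx : x = y + r • e) : HasDerivAt (fun r : ℝ => f (y + r • e)) (D e f x) r := by
  subst hx
  have h1 : HasDerivAt (fun r : ℝ => y + r • e) e r := by
    simpa using ((hasDerivAt_id r).smul_const e).const_add y
  exact hf.hasFDerivAt.comp_hasDerivAt r h1

theorem fpb_thm (E : Type) [NormedAddCommGroup E] [InnerProductSpace ℝ E]
    [FiniteDimensional ℝ E] [MeasurableSpace E] [BorelSpace E] (hR : RGCStmt E)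
    (hG : AAGStmt E) (hB : BASStmt E) (hW : PWBStmt E) : FPBStmt E := by
  intro U t hU ι _ _ b p hp
  have hA : FPB_R (fun s θ => cm b (pw U s θ)) := fun i j => (hG U t hU ι b i j).1
  have hdet : ∀ s θ, 0 ≤ s → 1 ≤ (1 + cm b (pw U s θ)).det := fun s θ hs =>
    FPB_det ((hB.2.2.2.2.2.1 _ _ ((hW U t hU).1 s θ hs) ι b).1)
  have hF : RG (fun s θ => FP p (cm b (pw U s θ))) := FPB_RGFP hR hA hdet p
  refine ⟨hF, fun s θ hs => ?_⟩
  -- time derivative
  have hdu : ∀ s θ, 0 ≤ s → IsUnit (1 + cm b (pw U s θ)).det := fun s θ hs =>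
    isUnit_iff_ne_zero.2 (by linarith [hdet s θ hs])
  have hT : deriv (fun r => FP p (cm b (pw U r θ))) s = (dFP p (cm b (pw U s θ)) *
      Matrix.of fun i j => deriv (fun r => cm b (pw U r θ) i j) s).trace := by
    refine (MTD_first (A := fun r => cm b (pw U r θ)) ?_ ?_ p).deriv
    · intro i j
      exact FPB_dt (hA i j) hs θ
    · filter_upwards [lt_mem_nhds hs] with r hr using hdu r θ hr.le
  -- space derivatives
  have hS : ∀ (k : ι) (η : E), D (b k) (fun θ => FP p (cm b (pw U s θ))) η =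
      (dFP p (cm b (pw U s η)) * Matrix.of fun i j =>
        D (b k) (fun θ => cm b (pw U s θ) i j) η).trace := by
    intro k η
    have h1 : HasDerivAt (fun r : ℝ => FP p (cm b (pw U s (η + r • b k))))
        (D (b k) (fun θ => FP p (cm b (pw U s θ))) η) 0 :=
      FPB_dl (f := fun θ => FP p (cm b (pw U s θ)))
        (((hR.2.2.2.2.2.1 _ hF s hs).2.1.differentiable (by norm_num)) η) (b k) (by simp)
    have h2 := MTD_first (A := fun r : ℝ => cm b (pw U s (η + r • b k)))
      (A' := Matrix.of fun i j => D (b k) (fun θ => cm b (pw U s θ) i j) η) (t := 0) ?_ ?_ p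
    · have h3 := h1.unique h2
      simpa using h3
    · intro i j
      exact FPB_dl (f := fun θ => cm b (pw U s θ) i j)
        (((hR.2.2.2.2.2.1 _ (hA i j) s hs).2.1.differentiable (by norm_num)) η) (b k) (by simp)
    · exact Eventually.of_forall fun r => hdu s _ hs.le
  have hS2 : ∀ (k : ι), D (b k) (D (b k) (fun θ => FP p (cm b (pw U s θ)))) θ =
      QQ p (cm b (pw U s θ)) (Matrix.of fun i j => D (b k) (fun θ => cm b (pw U s θ) i j) θ) +
      (dFP p (cm b (pw U s θ)) * Matrix.of fun i j =>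
        D (b k) (D (b k) (fun θ => cm b (pw U s θ) i j)) θ).trace := by
    intro k
    have hd : ∀ F : ℝ → E → ℝ, RG F → ∀ η : E, DifferentiableAt ℝ (D (b k) (F s)) η := by
      intro F hF η
      have h1 := (hR.2.2.2.2.2.1 _ hF s hs).2.1
      have h2 : ContDiff ℝ 1 (fderiv ℝ (F s)) := h1.fderiv_right (by norm_num)
      exact ((h2.clm_apply contDiff_const).differentiable (by norm_num)) η
    have h1 : HasDerivAt (fun r : ℝ => D (b k) (fun θ => FP p (cm b (pw U s θ))) (θ + r • b k))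
        (D (b k) (D (b k) (fun θ => FP p (cm b (pw U s θ)))) θ) 0 :=
      FPB_dl (f := D (b k) (fun θ => FP p (cm b (pw U s θ)))) (hd _ hF θ) (b k) (by simp)
    have h2 := MTD_second (A := fun r : ℝ => cm b (pw U s (θ + r • b k)))
      (A' := fun r : ℝ => Matrix.of fun i j =>
        D (b k) (fun θ => cm b (pw U s θ) i j) (θ + r • b k))
      (A'' := Matrix.of fun i j => D (b k) (D (b k) (fun θ => cm b (pw U s θ) i j)) θ)
      (t := 0) ?_ ?_ ?_ p
    · simp only [hS] at h1
      have h3 := h1.unique h2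
      simp only [zero_smul, add_zero] at h3
      rw [← h3]
    · intro i j
      exact FPB_dl (f := fun θ => cm b (pw U s θ) i j)
        (((hR.2.2.2.2.2.1 _ (hA i j) s hs).2.1.differentiable (by norm_num)) _) (b k) (by simp)
    · intro i j
      exact FPB_dl (f := D (b k) (fun θ => cm b (pw U s θ) i j)) (hd _ (hA i j) θ) (b k) (by simp)
    · exact Eventually.of_forall fun r => hdu s _ hs.le
  have hgen : ∀ i j, gen b U (fun s θ => cm b (pw U s θ) i j) s θ =
      -((cm b (pw U s θ)) ^ 2) i j := fun i j => (hG U t hU ι b i j).2.1 s θ hs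
  have ht3 : ∀ i j k, D (b k) (fun θ => cm b (pw U s θ) i j) θ =
      t3 (pw U s θ) (b k) (b i) (b j) := fun i j k => (hG U t hU ι b i j).2.2 s θ (b k) hs.le
  have hm : (-((cm b (pw U s θ)) ^ 2)) = (Matrix.of fun i j => deriv (fun r => cm b (pw U r θ) i j) s) +
      (∑ k, pm U s θ (li (b k)) • Matrix.of fun i j => D (b k) (fun θ => cm b (pw U s θ) i j) θ) +
      (1 / 2 : ℝ) • ∑ k, Matrix.of fun i j =>
        D (b k) (D (b k) (fun θ => cm b (pw U s θ) i j)) θ := by
    ext i j
    rw [Matrix.neg_apply, ← hgen i j, gen]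
    simp only [Matrix.add_apply, Matrix.of_apply, Matrix.sum_apply, Matrix.smul_apply, smul_eq_mul]
    ring
  rw [gen, hT]
  simp only [hS, hS2]
  have h5 : -(dFP p (cm b (pw U s θ)) * (cm b (pw U s θ)) ^ 2).trace =
      (dFP p (cm b (pw U s θ)) * (-((cm b (pw U s θ)) ^ 2))).trace := by
    rw [Matrix.mul_neg, Matrix.trace_neg]
  rw [h5, hm]
  simp only [Matrix.mul_add, Matrix.trace_add, Finset.mul_sum, Matrix.trace_sum,
    Matrix.mul_smul, Matrix.trace_smul, smul_eq_mul, Finset.sum_add_distrib, ht3]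
  simp only [← Finset.mul_sum]
  ring

end

end Pool.Agent.H4.KG
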