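import Pool.Agent.H73.KG.Stmts

/-!
# Project KG, module MTD: derivatives of `F_p` along a curve of matrices
-/

set_option autoImplicit false

open MeasureTheory Set Filter Topology

namespace Pool.Agent.H4.KG

open Pool.Agent.H73.KG

/-- entrywise derivative of a curve of matrices -/
def MTD_D {ι : Type} (M : ℝ → Matrix ι ι ℝ) (M' : Matrix ι ι ℝ) (t : ℝ) : Prop :=
  ∀ i j, HasDerivAt (fun r => M r i j) (M' i j) t

section

variable {ι : Type} [Fintype ι]

omit [Fintype ι] in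
theorem MTD_const (M : Matrix ι ι ℝ) (t : ℝ) : MTD_D (fun _ => M) 0 t := by
  intro i j
  simpa using hasDerivAt_const t (M i j)

omit [Fintype ι] in
theorem MTD_add {M N : ℝ → Matrix ι ι ℝ} {M' N' : Matrix ι ι ℝ} {t : ℝ} (hM : MTD_D M M' t)
    (hN : MTD_D N N' t) : MTD_D (fun r => M r + N r) (M' + N') t := by
  intro i j
  simpa using (hM i j).fun_add (hN i j)

omit [Fintype ι] in
theorem MTD_smul {M : ℝ → Matrix ι ι ℝ} {M' : Matrix ι ι ℝ} {t : ℝ} (c : ℝ)
    (hM : MTD_D M M' t) : MTD_D (fun r => c • M r) (c • M') t := by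
  intro i j
  simpa using (hM i j).const_mul c

theorem MTD_mul {M N : ℝ → Matrix ι ι ℝ} {M' N' : Matrix ι ι ℝ} {t : ℝ} (hM : MTD_D M M' t)
    (hN : MTD_D N N' t) : MTD_D (fun r => M r * N r) (M' * N t + M t * N') t := by
  intro i j
  simp only [Matrix.mul_apply, Matrix.add_apply]
  rw [← Finset.sum_add_distrib]
  exact HasDerivAt.fun_sum fun k _ => (hM i k).fun_mul (hN k j)

omit [Fintype ι] in
theorem MTD_congr {M N : ℝ → Matrix ι ι ℝ} {M' N' : Matrix ι ι ℝ} {t : ℝ} (hM : MTD_D M M' t)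
    (h : ∀ᶠ r in 𝓝 t, N r = M r) (h' : M' = N') : MTD_D N N' t := by
  subst h'
  intro i j
  exact (hM i j).congr_of_eventuallyEq (h.mono fun r hr => by simp only [hr])

omit [Fintype ι] in
theorem MTD_unique {M : ℝ → Matrix ι ι ℝ} {M' N' : Matrix ι ι ℝ} {t : ℝ} (hM : MTD_D M M' t)
    (hN : MTD_D M N' t) : M' = N' := by
  ext i j
  exact (hM i j).unique (hN i j)

theorem MTD_trace {M : ℝ → Matrix ι ι ℝ} {M' : Matrix ι ι ℝ} {t : ℝ} (hM : MTD_D M M' t) :
    HasDerivAt (fun r => (M r).trace) M'.trace t := by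
  simp only [Matrix.trace, Matrix.diag_apply]
  exact HasDerivAt.fun_sum fun k _ => hM k k

variable [DecidableEq ι]

theorem MTD_pow {M : ℝ → Matrix ι ι ℝ} {M' : Matrix ι ι ℝ} {t : ℝ} (hM : MTD_D M M' t) (p : ℕ) :
    MTD_D (fun r => M r ^ p)
      (∑ a ∈ Finset.range p, M t ^ a * M' * M t ^ (p - 1 - a)) t := by
  induction p with
  | zero => simpa using MTD_const (1 : Matrix ι ι ℝ) t
  | succ p ih =>
    refine MTD_congr (MTD_mul ih hM) (Eventually.of_forall fun r => pow_succ (M r) p) ?_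
    rw [Finset.sum_range_succ, Finset.sum_mul]
    congr 1
    · refine Finset.sum_congr rfl fun a ha => ?_
      have ha' := Finset.mem_range.1 ha
      rw [Matrix.mul_assoc (M t ^ a * M'), ← pow_succ]
      congr 2
      omega
    · simp

theorem MTD_det_diff {M : ℝ → Matrix ι ι ℝ} {t : ℝ}
    (hM : ∀ i j, DifferentiableAt ℝ (fun r => M r i j) t) :
    DifferentiableAt ℝ (fun r => (M r).det) t := by
  simp only [Matrix.det_apply]
  refine DifferentiableAt.fun_sum fun σ _ => ?_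
  refine DifferentiableAt.const_smul ?_ _
  exact DifferentiableAt.fun_finsetProd fun i _ => hM (σ i) i

theorem MTD_inv_diff {M : ℝ → Matrix ι ι ℝ} {t : ℝ}
    (hM : ∀ i j, DifferentiableAt ℝ (fun r => M r i j) t) (hu : IsUnit (M t).det) (i j : ι) :
    DifferentiableAt ℝ (fun r => (M r)⁻¹ i j) t := by
  have h1 : ∀ r, (M r)⁻¹ i j = ((M r).det)⁻¹ * (M r).adjugate i j := fun r => by
    rw [Matrix.inv_def]; simp
  simp only [h1]
  refine DifferentiableAt.fun_mul ((MTD_det_diff hM).fun_inv hu.ne_zero) ?_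
  simp only [Matrix.adjugate_apply]
  refine MTD_det_diff fun k l => ?_
  simp only [Matrix.updateRow_apply]
  split_ifs
  · exact differentiableAt_const _
  · exact hM k l

theorem MTD_inv {A : ℝ → Matrix ι ι ℝ} {A' : Matrix ι ι ℝ} {t : ℝ} (hA : MTD_D A A' t)
    (hu : ∀ᶠ r in 𝓝 t, IsUnit (1 + A r).det) :
    MTD_D (fun r => (1 + A r)⁻¹) (-((1 + A t)⁻¹ * A' * (1 + A t)⁻¹)) t := by
  have hA1 : MTD_D (fun r => 1 + A r) A' t := by
    refine MTD_congr (MTD_add (MTD_const (1 : Matrix ι ι ℝ) t) hA) (Eventually.of_forall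
      fun r => rfl) (zero_add _)
  have hd : ∀ i j, DifferentiableAt ℝ (fun r => (1 + A r)⁻¹ i j) t := fun i j =>
    MTD_inv_diff (M := fun r => 1 + A r) (fun i j => (hA1 i j).differentiableAt) hu.self_of_nhds i j
  set B' : Matrix ι ι ℝ := Matrix.of fun i j => deriv (fun r => (1 + A r)⁻¹ i j) t with hB'
  have hB : MTD_D (fun r => (1 + A r)⁻¹) B' t := fun i j => (hd i j).hasDerivAt
  have h0 : B' * (1 + A t) + (1 + A t)⁻¹ * A' = 0 := by
    refine MTD_unique (MTD_mul hB hA1) ?_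
    refine MTD_congr (MTD_const (1 : Matrix ι ι ℝ) t) ?_ rfl
    filter_upwards [hu] with r hr using Matrix.nonsing_inv_mul _ hr
  have hu0 : IsUnit (1 + A t).det := hu.self_of_nhds
  have h1 : B' = -((1 + A t)⁻¹ * A' * (1 + A t)⁻¹) := by
    have h2 : B' * (1 + A t) = -((1 + A t)⁻¹ * A') := by
      rw [eq_neg_iff_add_eq_zero]; exact h0
    calc B' = B' * (1 + A t) * (1 + A t)⁻¹ := by
          rw [Matrix.mul_assoc, Matrix.mul_nonsing_inv _ hu0, Matrix.mul_one]
      _ = _ := by rw [h2, Matrix.neg_mul]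
  rw [← h1]; exact hB

theorem MTD_key {A : Matrix ι ι ℝ} (hr : IsUnit (1 + A).det) :
    A * (1 + A)⁻¹ = 1 - (1 + A)⁻¹ ∧ (1 + A)⁻¹ * A = 1 - (1 + A)⁻¹ := by
  have h1 := Matrix.mul_nonsing_inv _ hr
  have h2 := Matrix.nonsing_inv_mul _ hr
  rw [Matrix.add_mul, Matrix.one_mul] at h1
  rw [Matrix.mul_add, Matrix.mul_one] at h2
  constructor
  · rw [eq_sub_iff_add_eq, add_comm]; exact h1
  · rw [eq_sub_iff_add_eq, add_comm]; exact h2

theorem MTD_res {A : ℝ → Matrix ι ι ℝ} {A' : Matrix ι ι ℝ} {t : ℝ} (hA : MTD_D A A' t)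
    (hu : ∀ᶠ r in 𝓝 t, IsUnit (1 + A r).det) :
    MTD_D (fun r => A r * (1 + A r)⁻¹) ((1 + A t)⁻¹ * A' * (1 + A t)⁻¹) t := by
  refine MTD_congr (MTD_add (MTD_const (1 : Matrix ι ι ℝ) t)
    (MTD_smul (-1) (MTD_inv hA hu))) ?_ ?_
  · filter_upwards [hu] with r hr
    rw [(MTD_key hr).1]
    simp [sub_eq_add_neg]
  · simp

/-- the first derivative of `F_p` along a curve -/
theorem MTD_first {A : ℝ → Matrix ι ι ℝ} {A' : Matrix ι ι ℝ} {t : ℝ} (hA1 : MTD_D A A' t)
    (hu : ∀ᶠ r in 𝓝 t, IsUnit (1 + A r).det) (p : ℕ) :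
    HasDerivAt (fun r => FP p (A r)) (dFP p (A t) * A').trace t := by
  have hu0 : IsUnit (1 + A t).det := hu.self_of_nhds
  have hC := MTD_res hA1 hu
  set B := (1 + A t)⁻¹ with hBdef
  have hcomm : A t * B = B * A t := by rw [(MTD_key hu0).1, (MTD_key hu0).2]
  have hBC : ∀ k : ℕ, B * (A t * B) ^ k = (A t * B) ^ k * B := by
    intro k
    have : Commute B (A t * B) := by
      show B * (A t * B) = A t * B * B
      rw [← Matrix.mul_assoc, ← hcomm]
    exact (this.pow_right k).eq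
  have hAC : ∀ k : ℕ, A t * (A t * B) ^ k = (A t * B) ^ k * A t := by
    intro k
    have : Commute (A t) (A t * B) := by
      show A t * (A t * B) = A t * B * A t
      rw [Matrix.mul_assoc, ← hcomm]
    exact (this.pow_right k).eq
  have hCp := MTD_pow hC p
  have h1 := MTD_trace (MTD_mul hA1 hCp)
  refine h1.congr_deriv ?_
  rw [← hBdef, Matrix.trace_add, Finset.mul_sum, Matrix.trace_sum, dFP, ← hBdef,
    Matrix.mul_add, Matrix.mul_one, Matrix.add_mul, Matrix.trace_add, Matrix.trace_mul_comm,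
    Matrix.mul_smul, Matrix.smul_mul, Matrix.trace_smul]
  congr 1
  have h3 : ∀ a ∈ Finset.range p, (A t * ((A t * B) ^ a * (B * A' * B) *
      (A t * B) ^ (p - 1 - a))).trace = ((A t * B) ^ p * B * A').trace := by
    intro a ha
    have ha' := Finset.mem_range.1 ha
    have e1 : A t * ((A t * B) ^ a * (B * A' * B) * (A t * B) ^ (p - 1 - a)) =
        (A t * (A t * B) ^ a * B * A') * (B * (A t * B) ^ (p - 1 - a)) := by
      simp only [Matrix.mul_assoc]
    rw [e1, Matrix.trace_mul_comm]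
    have e2 : B * (A t * B) ^ (p - 1 - a) * (A t * (A t * B) ^ a * B * A') =
        (A t * B) ^ p * B * A' := by
      rw [hBC, hAC]
      have e4 : B * (A t * B) = A t * B * B := by simpa using hBC 1
      calc (A t * B) ^ (p - 1 - a) * B * ((A t * B) ^ a * A t * B * A')
          = (A t * B) ^ (p - 1 - a) * (B * (A t * B) ^ a) * (A t * B) * A' := by
            simp only [Matrix.mul_assoc]
        _ = (A t * B) ^ (p - 1 - a) * (A t * B) ^ a * (B * (A t * B)) * A' := by
            rw [hBC]; simp only [Matrix.mul_assoc]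
        _ = (A t * B) ^ (p - 1 - a) * (A t * B) ^ a * (A t * B) * B * A' := by
            rw [e4]; simp only [Matrix.mul_assoc]
        _ = (A t * B) ^ p * B * A' := by
            rw [← pow_add, ← pow_succ]
            congr 3
            omega
    rw [e2]
  rw [Finset.sum_congr rfl h3]
  simp

/-- the second derivative of `F_p` along a curve -/
theorem MTD_second {A A' : ℝ → Matrix ι ι ℝ} {A'' : Matrix ι ι ℝ} {t : ℝ}
    (hA1 : MTD_D A (A' t) t) (hA2 : MTD_D A' A'' t)
    (hu : ∀ᶠ r in 𝓝 t, IsUnit (1 + A r).det) (p : ℕ) :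
    HasDerivAt (fun r => (dFP p (A r) * A' r).trace)
      (QQ p (A t) (A' t) + (dFP p (A t) * A'').trace) t := by
  have hB := MTD_inv hA1 hu
  have hC := MTD_res hA1 hu
  set B := (1 + A t)⁻¹ with hBdef
  have hCp := MTD_pow hC p
  have hI : MTD_D (fun r => 1 + (p:ℝ) • (1 + A r)⁻¹) ((p:ℝ) • -(B * A' t * B)) t := by
    refine MTD_congr (MTD_add (MTD_const (1 : Matrix ι ι ℝ) t) (MTD_smul (p:ℝ) hB))
      (Eventually.of_forall fun r => rfl) (zero_add _)
  have h1 := MTD_trace (MTD_mul (MTD_mul hCp hI) hA2)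
  refine h1.congr_deriv ?_
  rw [← hBdef, QQ, ← hBdef, Matrix.trace_add, dFP, ← hBdef]
  congr 1
  rw [Matrix.add_mul, Matrix.trace_add, sub_eq_add_neg, Finset.sum_mul, Finset.sum_mul,
    Matrix.trace_sum]
  congr 1
  · refine Finset.sum_congr rfl fun a _ => ?_
    simp only [Matrix.mul_assoc]
  · simp only [Matrix.mul_smul, Matrix.smul_mul, Matrix.mul_neg, Matrix.neg_mul, smul_neg,
      Matrix.trace_neg, Matrix.trace_smul, smul_eq_mul, Matrix.mul_assoc]

end

theorem mtd_thm : MTDStmt := by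
  intro ι _ _ A A' A'' t p hp hA hA'
  have hu : ∀ᶠ r in 𝓝 t, IsUnit (1 + A r).det := hA.mono fun r hr => hr.1
  have hA1 : MTD_D A (A' t) t := hA.self_of_nhds.2
  exact ⟨MTD_first hA1 hu p, MTD_second hA1 hA' hu p⟩

end Pool.Agent.H4.KG
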